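import Mathlib
import Pool.Agent.H8.BCov

set_option autoImplicit false

namespace Pool.Agent.Results.MP_b4c787_gt.CH

open Set Pool.Agent.H8.BCov

theorem result (h : Cardinal.continuum.{0} = Cardinal.aleph 1) : ¬ (∀ X : Set ℝ,
    (∀ 𝒰 : ℕ → ℕ → Set ℝ,
      (∀ m, (∀ n, MeasurableSet (𝒰 m n)) ∧ (∀ n, ¬ X ⊆ 𝒰 m n) ∧
        ∀ F : Finset ℝ, (↑F : Set ℝ) ⊆ X → ∃ n, (↑F : Set ℝ) ⊆ 𝒰 m n) →
      ∃ f : ℕ → ℕ, (∀ n, ¬ X ⊆ 𝒰 n (f n)) ∧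
        ∀ F : Finset ℝ, (↑F : Set ℝ) ⊆ X → ∃ n, (↑F : Set ℝ) ⊆ 𝒰 n (f n)) →
    ∀ k : ℕ, ∀ 𝒱 : ℕ → ℕ → Set (Fin k → ℝ),
      (∀ m, (∀ n, MeasurableSet (𝒱 m n)) ∧
        Set.pi Set.univ (fun _ => X) ⊆ ⋃ n, 𝒱 m n) →
      ∃ f : ℕ → ℕ, Set.pi Set.univ (fun _ => X) ⊆ ⋃ m, 𝒱 m (f m)) := by
  classical
  intro H
  obtain ⟨X, -, -, h2, -, V, h3, h4, h5, h6⟩ := main h
  have e : ∀ n k, ∃ W : Set (ℝ × ℝ), MeasurableSet W ∧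
      Prod.map Subtype.val Subtype.val ⁻¹' W = V n k := fun n k =>
    (MeasurableSpace.comap_prodMap (Subtype.val : X → ℝ) (Subtype.val : X → ℝ)).ge _ (h3 n k)
  choose W w1 w2 using e
  obtain ⟨f, hf⟩ := H X (fun 𝒰 hU => by
    have k : ∀ m (F : Set X), F.Finite → ∃ U ∈ range fun n => (Subtype.val ⁻¹' 𝒰 m n : Set X), F ⊆ U :=
      fun m F hF => by
        obtain ⟨n, hn⟩ := (hU m).2.2 (hF.image Subtype.val).toFinset (by simp)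
        exact ⟨_, mem_range_self n, fun x hx => hn (by simp [hx])⟩
    obtain ⟨U, u1, u2⟩ := h2.bo (fun m => range fun n => Subtype.val ⁻¹' 𝒰 m n) fun m =>
      ⟨⟨countable_range _, by rintro _ ⟨n, rfl⟩; exact measurable_subtype_coe ((hU m).1 n),
        eq_univ_of_forall fun z => (k m _ (finite_singleton z)).imp fun U h => ⟨h.1, h.2 rfl⟩,
        fun ⟨n, e⟩ => (hU m).2.1 n fun x hx => e.ge (mem_univ (⟨x, hx⟩ : X))⟩, k m⟩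
    choose f hf using u1
    refine ⟨f, fun n => (hU n).2.1 _, fun F hF => ?_⟩
    obtain ⟨_, ⟨n, rfl⟩, hn⟩ := u2.2 (Subtype.val ⁻¹' F) (F.finite_toSet.preimage
      Subtype.val_injective.injOn)
    exact ⟨n, fun x hx => (hf n).ge (hn (a := ⟨x, hF hx⟩) hx)⟩) 2
    (fun m n => (fun p => (p 0, p 1)) ⁻¹' W m n) fun m => ⟨fun n =>
      (show Measurable fun p : Fin 2 → ℝ => (p 0, p 1) by fun_prop) (w1 m n), fun p hp => by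
      obtain ⟨k, hk⟩ := h5 m (⟨p 0, hp 0 trivial⟩, ⟨p 1, hp 1 trivial⟩)
      exact mem_iUnion.2 ⟨k, (w2 m k).ge hk⟩⟩
  obtain ⟨z, hz⟩ := h6 f
  obtain ⟨m, hm⟩ := mem_iUnion.1 (hf (a := ![z.1, z.2]) fun i _ => by
    fin_cases i
    exacts [z.1.2, z.2.2])
  exact hz m ((w2 m _).le hm)

end Pool.Agent.Results.MP_b4c787_gt.CH
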